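import Pool.Agent.H916.LBd

/-!
# Log general type implies boundedness for pairs which are fibred by curves

`k` is an algebraically closed field of characteristic zero, for instance `ℂ`. `X` is a projective
variety over `k`, of arbitrary dimension and with arbitrary singularities, with the function field `K`
and the generic point `x` (homogeneous coordinates in `K`; `coords k x = ⊤` says that their ratios
generate `K` over `k`), and `D` is the proper closed subset of `X` which is given by the forms `Q i`;
every quasi-projective variety is of the form `U = X ∖ D`. A morphism `f` from a smooth curve
`C ∖ S` to `U`, where `C` is projective with the function field `E` and `S` a finite set of points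
(places of `E`), is given by its generic point with coordinates `f j` in `E`: a point of `X` over `E`
which does not meet `D` outside of `S` (`Meets Q f P`).

* `BoundedOff k x Q` is condition 5 of the question: there is a proper closed subset, which may be
  enlarged to the zeros of a form `G`, such that for all `C` and `S` the degrees of the morphisms
  `C ∖ S → U` whose image is not contained in it are bounded. (Bounded degree is the same as finite
  type for the schemes `Hom (C ∖ S, U)`.)
* `LinearOff k x Q` is the stronger property that these degrees are at most
  `A (max (2 g - 2, 0) + N)` with `A` independent of the curve, where `N` is the number of the points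
  of `f ⁻¹ (D)`; then `N ≤ |S|`.
* `LogGeneralType` is condition 4 for `U = X ∖ D`: there are `dim X + 1` algebraically independent
  logarithmic pluricanonical forms of the same weight, that is, the logarithmic Kodaira dimension is
  `dim X`.

`(Y l, D' l)` are finitely many such pairs with the generic points `y l` and the forms `Q' l c`, and
`φ l : B l → K` are embeddings of their function fields, that is, dominant rational maps `X ⇢ Y l`.
`PairMap` says that they are maps of pairs: a point of `X` which corresponds to a point of `D' l` under
the closure of the graph is a point of `D` (for a morphism this means that `U = X ∖ D` is mapped to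
`V l = Y l ∖ D' l`). The compositum of the `B l` is the function field of the image `Z` of `X` in the
product of the `Y l`. It is assumed that one of the following conditions is satisfied:

* `U` is of log general type and `dim X ≤ dim Z + 1`;
* `LogHypFibres`: `dim X = dim Z`, or the geometric generic fibre of `X ⇢ Z` is a curve which is
  hyperbolic after removing the points of `D`, that is, `2 g - 2` plus the number of these points is
  positive.

**Theorem.** (I) If all `V l` satisfy condition 5 then `U` satisfies condition 5; the same is true for
the linear bounds.

(II) Therefore condition 4 implies condition 5, with linear bounds, for all `U` which have maps of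
pairs of relative dimension at most one over their image to products of members of the class
`LogIterated` of iterated fibrations by hyperbolic curves: the smallest class such that `(X, D)`
belongs to the class if there are finitely many members `(Y l, D' l)` of the class as above. This class
contains the curves of log general type (there are no `Y l`), the quasi-projective surfaces of log
general type with a dominant map to a curve of log general type, and so on in every dimension; all
its members satisfy condition 5 with linear bounds.

Proof. (1) If `U` is of log general type then the geometric generic fibre of a fibration by curves is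
hyperbolic after removing the points of `D`: the logarithmic pluricanonical forms would otherwise be
constant along the fibres. (2) Relative height inequality: there is `A` with
`deg f ≤ A (max (2 g - 2, 0) + N + ∑ deg f l)` for all maps `f` from curves to `X`, outside of a proper
closed subset, where `f l` is the composition with `X ⇢ Y l`. Otherwise there is in an ultraproduct of
the function fields a derivation `δ` whose constants contain the function field of `Z`, and a point of
the generic fibre `M` of `X ⇢ Z` which is not defined over the field of the constants, such that the
orders of the coordinates and of `δ` are small multiples of the height except for simple poles at the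
points of `D`. It gives a vector field on `M` with values in a large field, and with the Wronskians of
the logarithmic pluricanonical systems of `M` and auxiliary polynomials (Siegel's lemma) it is
regular and logarithmic along `D`, which is impossible because `M ∖ D` is hyperbolic. (3) The points of
`f l ⁻¹ (D' l)` are in `f ⁻¹ (D)`, by the Nullstellensatz on the closure of the graph.

`coords`, `LogGeneralType` : `Pool/Graph/R_seed8/W602/GT/`; `pht`, `canDeg` : degree of a map and
`2 g - 2`; `Meets`, `cuspFun` : `Pool/Agent/H916/LRat.lean`; `LogHypFibres` :
`Pool/Agent/H916/LRing.lean`; `FibreField` : `Pool/Agent/H916/Fib.lean`; `PairMap`, `InClosure` :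
`Pool/Agent/H916/LPair.lean`; `LogIterated` : `Pool/Agent/H916/LVoj.lean`; `BoundedOff`, `LinearOff` :
`Pool/Agent/H916/LBd.lean`.
-/

set_option autoImplicit false
set_option linter.overlappingInstances false

open FF Pool.Agent.H916 MvPolynomial
open Pool.Agent.W602.GT (coords IsForm LogGeneralType)

namespace Pool.Agent.Results.MP_c69980_ag.FibredPairsBounded

/-- **Boundedness for quasi-projective varieties which are fibred by curves.** See the explanation
at the beginning of the file. -/
theorem result {k K : Type} [Field k] [IsAlgClosed k] [CharZero k] [Field K] [Algebra k K] {M : ℕ}
    {x : Fin (M + 1) → K} (hx : x ≠ 0) (hgen : coords k x = ⊤) {ι : Type} [Finite ι]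
    {Q : ι → MvPolynomial (Fin (M + 1)) k} (hQ : ∀ i, IsForm (Q i))
    (hQx : ∃ i, aeval x (Q i) ≠ 0) :
    (∀ (r : ℕ) (B : Fin r → Type) [∀ l, Field (B l)] [∀ l, Algebra k (B l)] (N : Fin r → ℕ)
      (y : ∀ l, Fin (N l + 1) → B l) (κ : Fin r → Type)
      (Q' : ∀ l, κ l → MvPolynomial (Fin (N l + 1)) k) (φ : ∀ l, B l →ₐ[k] K),
      (∀ l, y l ≠ 0 ∧ coords k (y l) = ⊤ ∧ Finite (κ l) ∧ (∀ c, IsForm (Q' l c)) ∧
        ∃ c, aeval (y l) (Q' l c) ≠ 0) →
      (∀ l, PairMap x Q (fun j => φ l (y l j)) (Q' l)) →
      (((∃ n, LogGeneralType k K n fun P => Meets Q x P) ∧
          Algebra.trdeg k K ≤ Algebra.trdeg k ↥(⨆ l, (φ l).fieldRange) + 1) ∨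
        LogHypFibres (⨆ l, (φ l).fieldRange).toSubfield (cuspFun x Q)) →
      ((∀ l, BoundedOff k (y l) (Q' l)) → BoundedOff k x Q) ∧
      ((∀ l, LinearOff k (y l) (Q' l)) → LinearOff k x Q) ∧
      ((∀ l, LogIterated k (y l) (Q' l)) → LogIterated k x Q)) ∧
    (LogIterated k x Q → BoundedOff k x Q ∧ LinearOff k x Q) := by
  refine ⟨fun r B _ _ N y κ Q' φ hY hmap hor => ?_, fun h =>
    ⟨bounded_of_linear h.linear, h.linear⟩⟩
  have hfib : LogHypFibres (⨆ l, (φ l).fieldRange).toSubfield (cuspFun x Q) := by
    rcases hor with ⟨⟨n, hn⟩, htr⟩ | h
    · exact logHyp_of_lgt' hx hgen hQx hn htr
    · exact h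
  have hy : ∀ l, (fun i => φ l (y l i)) ≠ 0 := by
    intro l h0
    apply (hY l).1
    funext i
    have h1 := congrFun h0 i
    exact (φ l).injective (by rw [Pi.zero_apply, map_zero]; exact h1)
  have hC : (⨆ l, coords k fun i => φ l (y l i)) = ⨆ l, (φ l).fieldRange := by
    congr 1
    funext l
    rw [coords_map, (hY l).2.1, ← AlgHom.fieldRange_eq_map]
  have hmain := bounded_multiL hx hgen hQ hQx hy (fun l => (hY l).2.2.1)
    (fun l => (hY l).2.2.2.1) (fun l => by
      obtain ⟨c, hc⟩ := (hY l).2.2.2.2
      exact ⟨c, fun h0 => hc ((val_hom_eq (φ l) (y l) (Q' l c)).1 h0)⟩) hmap
    (by rw [hC]; exact hfib)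
  exact ⟨fun hV => hmain.1 fun l => bounded_homL (φ l) (hV l),
    fun hV => hmain.2 fun l => linear_homL (φ l) (hV l),
    fun hI => LogIterated.step hx hgen hQ hQx hI φ hmap hfib⟩

end Pool.Agent.Results.MP_c69980_ag.FibredPairsBounded
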