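import Pool.Agent.H918.J.Five

/-!
# The conditions of the extended Lang-Vojta conjecture for surfaces of general type over an elliptic
curve

Let `X = {F = 0}` be an irreducible complex projective surface (it may be singular), with the generic
point `y`, which is of general type (condition 4 of Q1), and let `α` be a holomorphic map from `X` to
an elliptic curve `ℂ / Λ` which is given by forms `A` (`WForms`: the composition of `α` with the
embedding by `(1 : ℘ : ℘')`), such that `X` has, for a finite set `B` of points of the elliptic curve, a
semistable reduction which is unramified outside of the fibres over `B` (`HasReduction`; by the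
theorems of Deligne and Mumford and of Arakelov all smooth projective surfaces of general type with a
holomorphic map with connected fibres to an elliptic curve satisfy this), and a form `H` which is not
zero on `X` is zero on the fibres over `B`.

**Theorem.** There is a proper closed subset `Δ = {G = 0}` of `X` such that

(1) the Kobayashi pseudodistance of any two different points of `X` which are not both in `Δ` is
    positive;
(2) every nonconstant holomorphic map from the complex plane to `X` has its values in `Δ`;
(3) for every smooth projective curve `C`, every point `c` of `C` and every point `x` of `X` outside of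
    `Δ` there are only finitely many morphisms `f : C → X` with `f c = x`;
(5) if the curves of geometric genus at most one in `X` are contained in fibres of `α` (that is, there is
    no elliptic curve in `X` which is mapped onto the elliptic curve by `α`), there is `N` such that
    `deg f ≤ N max (2 g - 2, 0)` for all morphisms `f` from smooth projective curves of genus `g` to
    `X` whose image is not contained in `Δ`; in particular `X` is bounded modulo `Δ`.

So all five conditions of Q1 hold for these surfaces (with 3 for curves), and all but 5 also if there are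
elliptic curves in `X` which are mapped onto the elliptic curve.
-/

set_option autoImplicit false
set_option linter.overlappingInstances false

open FF LinearAlgebra.Projectivization
open Pool.Agent.W603.LV Pool.Agent.W603.PV Pool.Agent.W602.GT Pool.Agent.N154.GG
open Pool.Agent.W602.RG (PointedMaps)
open Pool.Agent.Y216 (OnVar)
open Pool.Agent.H918.SS (ProjVariety HasReduction)
open Pool.Agent.H918.AH (LowInFibres)
open Pool.Agent.H918.PF (WForms)
open Pool.Agent.H918.AI

namespace Pool.Agent.Results.MP_c69980_ag.FibredSurfaces

/-- **The extended Lang-Vojta conjecture for surfaces of general type over an elliptic curve.** See the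
explanation at the beginning of the file. -/
theorem result (n : ℕ) (ι : Type) (F : ι → MvPolynomial (Fin (n + 1)) ℂ) (K : Type) [Field K]
    [Algebra ℂ K] (y : Fin (n + 1) → K) (Λ : PeriodPair)
    (α : (Fin (n + 1) → ℂ) → ℂ ⧸ Λ.lattice) (A : Fin 3 → MvPolynomial (Fin (n + 1)) ℂ)
    (B : Set (ℂ ⧸ Λ.lattice)) (H : MvPolynomial (Fin (n + 1)) ℂ)
    (hX : ProjVariety F 2 y) (hK : GeneralType ℂ K 2)
    (hα : HolToTorus (Cone F) Λ α) (hA : WForms F Λ α A) (h0 : val y (A 0) ≠ 0)
    (hB : B.Finite) (hR : HasReduction F α B) (hH : IsForm H) (hy : val y H ≠ 0)
    (hHB : ∀ u ∈ Cone F, α u ∈ B → val u H = 0) :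
    ∃ G : MvPolynomial (Fin (n + 1)) ℂ, IsForm G ∧ val y G ≠ 0 ∧
      (∀ p q : ℙ ℂ (Fin (n + 1) → ℂ), p.rep ∈ Cone F → q.rep ∈ Cone F → p ≠ q →
        (val p.rep G ≠ 0 ∨ val q.rep G ≠ 0) → 0 < kobayashi (Cone F) p q) ∧
      (∀ f, HolIn F f → (∀ z w, f z = f w) ∨ ∀ z, val (f z).rep G = 0) ∧
      (∀ (L : Type) [Field L] [Algebra ℂ L] [IsFF ℂ L] (c : Place ℂ L), ∀ x ∈ Cone F,
        val x G ≠ 0 → (PointedMaps y c x).Finite) ∧
      (LowInFibres F α → ∃ N : ℕ, ∀ (L : Type) [Field L] [Algebra ℂ L] [IsFF ℂ L]
        (f : Fin (n + 1) → L), OnVar ℂ y f → val f G ≠ 0 → pht ℂ f ≤ N * max (canDeg ℂ L) 0) :=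
  five hX hK hα hA h0 hB hR hH hy hHB

end Pool.Agent.Results.MP_c69980_ag.FibredSurfaces
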