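import Mathlib
import Pool.Agent.H917.M.Z1

/-!
MP_c69980_ag, Q1: the extended Lang-Vojta conjecture, for quasi-projective varieties `X` with a
compactification such that some symmetric power of the logarithmic cotangent bundle is generated by
global sections, and for all closed subvarieties of `X`.

The boundary `D` of the projective variety `X̄` with the ideal `p` is given by boundary coordinates:
in the chart where the `j`-th coordinate is not zero, `D` is the union of the hyperplane sections
given by the coordinates in `B j` (`BdC p B`), and `X = X̄ \ D` is the set of the points `x` with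
`OffB B x`. Every pair (smooth projective variety, divisor with simple normal crossings) has such
an embedding in a projective space, in which each component of `D` is, in each chart, the divisor
of one of the coordinates: take line bundles `A` and `A(-D_i)`, all very ample, with generating
sections `a_j` (among them all `s_i t^(i)_c`, where `s_i` is the section of `O(D_i)` with the
divisor `D_i`) and `t^(i)_c`, and the coordinates `a_j * ∏_i t^(i)_(c_i)`.

A smooth curve is given by its function field `F` (`IsFF ℂ F`) and the finite set `T` of the places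
(the points of the smooth projective model) which do not belong to the curve; `canDeg ℂ F = 2 g - 2`;
`pht ℂ x` is the degree of the line bundle `f^* O(1)` for the morphism `f` with the homogeneous
coordinates `x`.
-/

set_option autoImplicit false

namespace Pool.Agent.Results.MP_c69980_ag.GenPowersLogPointed

open MvPolynomial FF Pool.Agent.H917 Pool.Agent.H917.Lg Pool.Agent.H917.Mg
open Pool.Agent.W602.GT (LogGeneralType)

/-- Let `p` be the homogeneous ideal of a projective variety `X̄`, with the boundary `D` given by
the boundary coordinates `B`, such that the `m`-th symmetric power of the logarithmic cotangent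
sheaf of `(X̄, D)` is generated by global sections, for some `m ≥ 1`. Let `V̄` be an irreducible
closed subvariety of `X̄` which is not contained in `D` (such as `X̄` itself, if it is irreducible),
with the homogeneous prime ideal `q`, the function field `K` of transcendence degree `w` and the
generic point `y`, and `V = V̄ \ D`. Then `V` is (4) of log general type if and only if (2) the
images of all nonconstant entire curves in `V` are contained in a proper closed subset. If this is
the case, then there is a proper closed subset `Δ` such that: the degrees of the morphisms from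
all smooth curves (of genus `g` without `s` points) to `V` with image not contained in `Δ` are at
most a constant times `max (2 g - 2 + s) 0`, in particular (5) holds; and (3) (for curves) for
every pointed smooth quasi-projective curve `(C, c)` and every point `x` of `V` outside of `Δ` there
are only finitely many morphisms from `C` to `V` which map `c` to `x`.

If `V` is projective (`D` is empty) or affine (the boundary of `V` is a hypersurface section `Q = 0`
of `V̄`, for example if `D` is a hypersurface section of `X̄`), then (2), (3) (for curves), (4) and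
(5) are equivalent: (5) there is a proper closed subset `Δ` such that, for
every smooth quasi-projective curve `C`, the morphisms from `C` to `V` with image not contained in
`Δ` have bounded degree. -/
theorem result {n : ℕ} (p : Ideal (MvPolynomial (Fin (n + 1)) ℂ))
    (B : Fin (n + 1) → Finset (Fin (n + 1))) (hB : BdC p B) {m : ℕ} (hm : 1 ≤ m)
    (hg : BGenerated p B m)
    (q : Ideal (MvPolynomial (Fin (n + 1)) ℂ)) (hqp : q.IsPrime)
    (hq : ∀ H ∈ q, ∀ d, homogeneousComponent d H ∈ q) (hpq : p ≤ q) (K : Type) [Field K]
    [Algebra ℂ K] (w : ℕ) (y : Fin (n + 1) → K) (hy : SubVarB q B K w y)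
    (hf : ∀ H : MvPolynomial (Fin (n + 1)) ℂ, (∃ d, H.IsHomogeneous d) → aeval y H = 0 → H ∈ q) :
    (LogGeneralType ℂ K w (BdP B y) ↔
      ∃ G : MvPolynomial (Fin (n + 1)) ℂ, (∃ d, G.IsHomogeneous d) ∧ G ∉ q ∧
        ∀ f, EntCurve q f → (∀ z, OffB B (f z)) → ∀ z, eval (f z) G = 0) ∧
    (LogGeneralType ℂ K w (BdP B y) →
      ∃ G : MvPolynomial (Fin (n + 1)) ℂ, (∃ d, G.IsHomogeneous d) ∧ G ∉ q ∧ LinBoundB q B G ∧
        PointedFinB q B G) ∧
    ((∀ j, B j = ∅) ∨ (∃ (Q : MvPolynomial (Fin (n + 1)) ℂ) (d : ℕ), 1 ≤ d ∧
        Q.IsHomogeneous d ∧ Bdry q Q B) →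
      List.TFAE [LogGeneralType ℂ K w (BdP B y),
        ∃ G : MvPolynomial (Fin (n + 1)) ℂ, (∃ d, G.IsHomogeneous d) ∧ G ∉ q ∧
          PointedFinB q B G,
        ∃ G : MvPolynomial (Fin (n + 1)) ℂ, (∃ d, G.IsHomogeneous d) ∧ G ∉ q ∧
          BoundedB q B G]) := by
  have h1 : LogGeneralType ℂ K w (BdP B y) →
      ∃ G : MvPolynomial (Fin (n + 1)) ℂ, (∃ d, G.IsHomogeneous d) ∧ G ∉ q ∧ LinBoundB q B G ∧
        PointedFinB q B G := by
    intro h
    obtain ⟨G, hG, hGq, h2⟩ := linBoundB_of_lgt hqp hq (hB.res hpq) hm (hg.res hpq) hy hf h
    exact ⟨G, hG, hGq, h2, pointedFinB_of_bounded hq (hB.res hpq) hm (hg.res hpq) hG h2.bounded⟩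
  refine ⟨(tfae4 hqp hq (hB.res hpq) hm (hg.res hpq) hy hf).out 0 2, h1, fun hAP => ?_⟩
  have h3 : ∀ G : MvPolynomial (Fin (n + 1)) ℂ, (∃ d, G.IsHomogeneous d) → G ∉ q →
      BoundedB q B G ∨ PointedFinB q B G → LogGeneralType ℂ K w (BdP B y) := fun G hG hGq =>
    lgt_of_either hqp hq (hB.res hpq) hAP hm (hg.res hpq) hy hf hG hGq
  tfae_have 1 → 3 := by
    intro h
    obtain ⟨G, hG, hGq, h2, -⟩ := h1 h
    exact ⟨G, hG, hGq, h2.bounded⟩
  tfae_have 3 → 2 := by
    rintro ⟨G, hG, hGq, h⟩
    exact ⟨G, hG, hGq, pointedFinB_of_bounded hq (hB.res hpq) hm (hg.res hpq) hG h⟩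
  tfae_have 2 → 1 := by
    rintro ⟨G, hG, hGq, h⟩
    exact h3 G hG hGq (Or.inr h)
  tfae_finish

end Pool.Agent.Results.MP_c69980_ag.GenPowersLogPointed
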