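import Pool.Agent.H910.Lp.Off
import Pool.Agent.H910.Lp.Cov

/-!
# Entire curves, log general type and boundedness for quasi-projective varieties with ramified maps to
the spaces of the binary forms

`U = X ∖ D`, where `X` is a complex projective variety, of arbitrary dimension and with arbitrary
singularities, with the function field `K` and the generic point `x` (homogeneous coordinates in `K`;
`coords ℂ x = ⊤` says that their ratios generate `K`), and `D` is the proper closed subset of the
common zeros in `X` of finitely many forms `Q i` (`Pair x Q`). `P^(n + 1)` is the space of the binary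
forms `y` of degree `n + 1`. A rational map `y` from `X` to this space, with image not contained in the
discriminant hypersurface, is *ramified* (`Ram ℂ x Q y`) if there are distinct numbers `a i` and
weights `μ i ≤ M`, `c i` and `cD` with `(n + 1) (∑ c i + 2 n cD) + 2 M < ∑ μ i`, such that at all
places of the points of `X` which do not meet `D` (points with coordinates in a field extension of
`ℂ`, outside of a proper closed subset) the orders of contact `s i` of the image with the hyperplanes
of the forms which vanish at `(1 : a i)` and `t` with the discriminant hypersurface satisfy one of the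
following conditions: `t = 0` and each `s i` is zero or at least `M / (M - μ i)`; or
`∑ c i s i + cD t ≥ M`.

**Theorem.** (I) If there is a generically finite ramified map from `(X, D)`, then there are a proper
closed subset `G = 0` and a number `A` such that: all closed subvarieties of positive dimension of
`U` which are not contained in `G = 0` (for instance `U`) are of log general type (condition 4); the
holomorphic maps from the punctured disc to `U` with image not contained in `G = 0` extend to the
disc, and all nonconstant entire curves in `U` are contained in `G = 0` (condition 2); and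
`deg f ≤ A (2 g - 2 + N)` for the nonconstant maps `f` from curves of genus `g` to `X`, with `N` points
over `D`, whose image is not contained in `D` or `G = 0` (condition 5, with an effective bound).

(II) The statements about holomorphic maps and about the degrees are true if there are finitely many
ramified maps such that the map to the product is generically finite.

(III) Let `V l = Y l ∖ D' l` be finitely many quasi-projective varieties which satisfy condition 2
and the linear bounds of (I) (`HypOff`), with dominant rational maps of pairs from `(X, D)` to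
`(Y l, D' l)` (given by the embeddings `φ l` of the function fields), let `z l` be finitely many
ramified maps from `(X, D)`, and let `Z` be the image of `X` in the product. If `U` is of log general
type and `dim X ≤ dim Z + 1`, or if `dim X = dim Z` or the geometric generic fibre of `U` over `Z` is a
hyperbolic curve (`LogHypFibres`), then `U` satisfies condition 2 and the linear bounds, hence
conditions 2 and 5. For instance, this is true for all quasi-projective surfaces of log general type
with a nonconstant ramified map.

(IV) The conclusion of (III) is true for all members of the class `Tower` of the pairs which arise in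
this way, starting from nothing.

(V) A numerical criterion for ramified maps: products of powers of the values at the points
`(1 : a i)` and of the discriminant of `y` are powers in `K` up to constants, the hyperplanes with
`i ∈ J` and the discriminant hypersurface (if `b`) are omitted outside of `D`, and there are weights
for which all possible orders of contact satisfy the condition.

(VI) Let `a i`, `i ≤ r`, be distinct numbers, `n + 1 ≤ r`, `r + 1 < m (r - 1)`, let
`Y(x) = (Y 0 (x), ..., Y (n + 1) (x))` be forms of degree `m` in `x 0, ..., x r`, let `X` be an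
irreducible closed subvariety of the variety `Y(x) (1 : a i) = x i ^ m` in `P^r` and let `D` be given
by `disc Y(x) = 0`. The nonconstant entire curves in `X ∖ D`, and the holomorphic maps from the
punctured disc to `X ∖ D` with an essential singularity, are contained in the union of the coordinate
hyperplanes, the subvarieties of positive dimension of `X ∖ D` not contained in a coordinate hyperplane
are of log general type, and
`(m (r - 1) - (r + 1)) deg f ≤ (n + 1) max (2 g - 2 + N, 0)` for the maps from curves of genus
`g` to `X`, with `N` points over `D`, whose image is not contained in `D` or in a coordinate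
hyperplane. For `r = n + 1` there is for each `m` a `Y` with `Y(x) (1 : a i) = x i ^ m`; then `X` can be
`P^(n + 1)`, `D` is the hypersurface `disc Y(x) = 0` of degree `2 n m`, and the condition is
`n + 2 < m n`.

`Pair`, `LogOff`, `Covering`, `OnCovering` : `Pool/Agent/H910/Cf/Stm.lean`; `HypOff`, `StrongBound` :
`Pool/Agent/H910/Lp/Adf.lean`; `PDisc`, `Entire`, `PicardOff`, `BrodyOff` :
`Pool/Agent/H910/Cf/Pic.lean`; `Ram`, `Gen` : `Pool/Agent/H910/Cf/Defs.lean`; `Root`, `Wts` :
`Pool/Agent/H910/Cf/Crit.lean`; `Tower` : `Pool/Agent/H910/Cf/Cls.lean`; `hyp`, `dsc` :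
`Pool/Agent/H910/Vf/Defs.lean`; `PairMap` : `Pool/Agent/H916/LPair.lean`; `Meets`, `cuspFun` :
`Pool/Agent/H916/LRat.lean`; `LogHypFibres` : `Pool/Agent/H916/LRing.lean`; `OnVar` :
`Pool/Graph/R_seed8/Y216/Point.lean`; `LogGeneralType` : `Pool/Graph/R_seed8/W602/GT/Defs.lean`.
-/

set_option autoImplicit false
set_option linter.overlappingInstances false

open FF Pool.Agent.H910.Cf Pool.Agent.H910.Lp
open Pool.Agent.H916 (Meets PairMap LogHypFibres cuspFun)
open Pool.Agent.W602.GT (coords IsForm LogGeneralType val)
open Pool.Agent.W603.BP (Extends)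
open Pool.Agent.W603.LV (canDeg)
open Pool.Agent.W603.PV (pht)
open Pool.Agent.H910.Vf (hyp dsc)

namespace Pool.Agent.Results.MP_c69980_ag.MapsToBinaryForms

/-- **Quasi-projective varieties with ramified maps to the spaces of the binary forms.** See the
explanation at the beginning of the file. -/
theorem result :
    (∀ (M : ℕ) (K : Type) [Field K] [Algebra ℂ K] (x : Fin (M + 1) → K) (ι : Type)
      (Q : ι → MvPolynomial (Fin (M + 1)) ℂ), Pair x Q →
      (∀ (n : ℕ) (y : Fin (n + 2) → K), Ram ℂ x Q y → Algebra.IsAlgebraic (coords ℂ y) K →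
        ∃ (G : MvPolynomial (Fin (M + 1)) ℂ) (A : ℕ), IsForm G ∧ val x G ≠ 0 ∧ LogOff ℂ x Q G ∧
          PicardOff x Q G ∧ BrodyOff x Q G ∧ StrongBound x Q G A) ∧
      (∀ (r : ℕ) (n : Fin r → ℕ) (z : ∀ l, Fin (n l + 2) → K), (∀ l, Ram ℂ x Q (z l)) →
        Algebra.IsAlgebraic ↥(⨆ l, coords ℂ (z l)) K →
        ∃ (G : MvPolynomial (Fin (M + 1)) ℂ) (A : ℕ), IsForm G ∧ val x G ≠ 0 ∧
          PicardOff x Q G ∧ BrodyOff x Q G ∧ StrongBound x Q G A) ∧
      ∀ (r r' : ℕ) (B : Fin r → Type) [iB : ∀ l, Field (B l)] [iA : ∀ l, Algebra ℂ (B l)]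
        (N : Fin r → ℕ) (y : ∀ l, Fin (N l + 1) → B l) (κ : Fin r → Type)
        (Q' : ∀ l, κ l → MvPolynomial (Fin (N l + 1)) ℂ) (n : Fin r' → ℕ)
        (z : ∀ l, Fin (n l + 2) → K) (φ : ∀ l, B l →ₐ[ℂ] K), (∀ l, Pair (y l) (Q' l)) →
        (∀ l, PairMap x Q (fun j => φ l (y l j)) (Q' l)) → (∀ l, Ram ℂ x Q (z l)) →
        (((∃ w, LogGeneralType ℂ K w fun P => Meets Q x P) ∧
            Algebra.trdeg ℂ K ≤
              Algebra.trdeg ℂ ↥((⨆ l, (φ l).fieldRange) ⊔ ⨆ l, coords ℂ (z l)) + 1) ∨
          LogHypFibres ((⨆ l, (φ l).fieldRange) ⊔ ⨆ l, coords ℂ (z l)).toSubfield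
            (cuspFun x Q)) →
        (∀ l, HypOff (y l) (Q' l)) → HypOff x Q) ∧
    (∀ (M : ℕ) (K : Type) [Field K] [Algebra ℂ K] (x : Fin (M + 1) → K) (ι : Type)
      (Q : ι → MvPolynomial (Fin (M + 1)) ℂ), Tower ℂ x Q → HypOff x Q) ∧
    (∀ (M : ℕ) (K : Type) [Field K] [Algebra ℂ K] (x : Fin (M + 1) → K) (ι : Type)
      (Q : ι → MvPolynomial (Fin (M + 1)) ℂ), Pair x Q → ∀ (n q r : ℕ) (y : Fin (n + 2) → K)
      (a : Fin q → ℂ) (m : Fin r → ℕ) (c : Fin r → Fin q → ℕ) (d : Fin r → ℕ) (J : Set (Fin q))
      (b : Prop), Function.Injective a → Gen a y → (∀ l, Root a y (m l) (c l) (d l)) →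
      (∀ i ∈ J, PairMap x Q y fun _ : Unit => hyp ℂ (n + 1) 1 (a i)) →
      (b → PairMap x Q y fun _ : Unit => dsc ℂ n) →
      (Wts n fun s t => (∀ l, m l ∣ ∑ i, c l i * s i + d l * t) ∧ (∀ i ∈ J, s i = 0) ∧
        (b → t = 0)) → Ram ℂ x Q y) ∧
    (∀ (n r m : ℕ) (a : Fin (r + 1) → ℂ) (Y : Fin (n + 2) → MvPolynomial (Fin (r + 1)) ℂ),
      Covering m a Y → n + 1 ≤ r → r + 1 < m * (r - 1) →
      (∀ (K : Type) [Field K] [Algebra ℂ K] (x : Fin (r + 1) → K), OnCovering m a Y x →
        (∀ f, Entire x (fun _ : Unit => MvPolynomial.aeval Y (dsc ℂ n)) f →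
          ∀ t, ∏ i, f t i = 0) ∧
        ∀ f, PDisc x (fun _ : Unit => MvPolynomial.aeval Y (dsc ℂ n)) f → ¬ Extends f →
          ∃ i, ∀ t ∈ Metric.ball (0 : ℂ) 1 \ {0}, f t i = 0) ∧
      (∀ (E : Type) [Field E] [Algebra ℂ E] (f : Fin (r + 1) → E) (t : ℕ), OnCovering m a Y f →
        coords ℂ f = ⊤ → 1 ≤ t → Algebra.trdeg ℂ E = t →
        LogGeneralType ℂ E t fun P => Meets (fun _ : Unit => MvPolynomial.aeval Y (dsc ℂ n)) f P) ∧
      ∀ (L : Type) [Field L] [Algebra ℂ L] [IsFF ℂ L] (f : Fin (r + 1) → L),
        OnCovering m a Y f → ((m : ℤ) * (r - 1) - (r + 1)) * pht ℂ f ≤ (n + 1) * max (canDeg ℂ L +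
          {P : Place ℂ L | Meets (fun _ : Unit => MvPolynomial.aeval Y (dsc ℂ n)) f P}.ncard) 0) ∧
    ∀ (n m : ℕ) (a : Fin (n + 2) → ℂ), Function.Injective a →
      ∃ Y : Fin (n + 2) → MvPolynomial (Fin (n + 2)) ℂ, Covering m a Y ∧
        ∀ i, MvPolynomial.aeval Y (hyp ℂ (n + 1) 1 (a i)) = MvPolynomial.X i ^ m := by
  refine ⟨fun M K _ _ x ι Q hp => ⟨fun n y h halg => off_single hp h halg,
    fun r n z h halg => off_multi hp h halg,
    fun r r' B _ _ N y κ Q' n z φ hY hmap hz h hV => off_ascend hp hY φ hmap hz h hV⟩,
    fun M K _ _ x ι Q h => tower_hypOff h,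
    fun M K _ _ x ι Q hp n q r y a m c d J b ha hy hroot hJ hb hnum =>
      ram_criterion hp ha hy hroot J hJ b hb hnum,
    fun n r m a Y hY hr hm => ⟨fun K _ _ x hx => ⟨fun f hf t => cov_ent hm hY hr hx hf t,
      fun f hf hess => cov_disc hm hY hr hx hf hess⟩,
      fun E _ _ f t hf hgen ht htr => covering_lgt hY hr hm hf hgen htr ht,
      fun L _ _ _ f hf => covering_curve hY hr ?_ hf⟩,
    fun n m a ha => exists_covering m ha⟩
  by_contra h
  have : m = 0 := by omega
  rw [this, zero_mul] at hm
  omega

end Pool.Agent.Results.MP_c69980_ag.MapsToBinaryForms
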